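import Mathlib

/-!
Averages over the lattice points of a convex body from averages over squares.
-/

set_option autoImplicit false

namespace Pool.Agent.T6.H64.AR

open Finset

/-- the square `(U, U + X] × (V, V + X]` -/
noncomputable def Bx (U V : ℤ) (X : ℕ) : Finset (ℤ × ℤ) := Ioc U (U + X) ×ˢ Ioc V (V + X)

theorem mem_Bx {U V : ℤ} {X : ℕ} {t : ℤ × ℤ} :
    t ∈ Bx U V X ↔ (U < t.1 ∧ t.1 ≤ U + X) ∧ (V < t.2 ∧ t.2 ≤ V + X) := by
  unfold Bx
  rw [mem_product, mem_Ioc, mem_Ioc]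

/-- the index of the cell of a point -/
def ix (X : ℕ) (t : ℤ × ℤ) : ℤ × ℤ := ((t.1 - 1) / (X : ℤ), (t.2 - 1) / (X : ℤ))

theorem ix_spec {X : ℕ} (hX : 0 < X) (u : ℤ) :
    (u - 1) / (X : ℤ) * X < u ∧ u ≤ (u - 1) / (X : ℤ) * X + X := by
  have hX' : (0 : ℤ) < X := by exact_mod_cast hX
  have h1 := Int.emod_add_mul_ediv (u - 1) X
  have h2 := Int.emod_nonneg (u - 1) hX'.ne'
  have h3 := Int.emod_lt_of_pos (u - 1) hX'
  have h4 : (X : ℤ) * ((u - 1) / (X : ℤ)) = (u - 1) / (X : ℤ) * X := mul_comm _ _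
  constructor <;> linarith

/-- the indices of the cells with a given midpoint box -/
theorem few {X : ℕ} (hX : 0 < X) (c : ℝ) (u p i : ℤ)
    (hi : i * X < p ∧ p ≤ i * X + X)
    (hu : ⌊((p : ℝ) + c) / 2⌋ < u ∧ u ≤ ⌊((p : ℝ) + c) / 2⌋ + X) :
    i ∈ Icc ⌈(2 * (u : ℝ) - c) / X - 3⌉ (⌈(2 * (u : ℝ) - c) / X - 3⌉ + 2) := by
  have hX' : (0 : ℝ) < X := by exact_mod_cast hX
  have h1 : ((p : ℝ) + c) / 2 < u := Int.floor_lt.1 hu.1
  have h2 : (u : ℝ) ≤ ((p : ℝ) + c) / 2 + X := by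
    have h3 : (u : ℝ) ≤ (⌊((p : ℝ) + c) / 2⌋ : ℝ) + X := by exact_mod_cast hu.2
    have h4 := Int.floor_le (((p : ℝ) + c) / 2)
    linarith
  have h3 : (i : ℝ) * X < p := by exact_mod_cast hi.1
  have h4 : (p : ℝ) ≤ i * X + X := by exact_mod_cast hi.2
  have h5 : (i : ℝ) < (2 * (u : ℝ) - c) / X := by
    rw [lt_div_iff₀ hX']
    linarith
  have h6 : (2 * (u : ℝ) - c) / X - 3 ≤ i := by
    rw [sub_le_iff_le_add, div_le_iff₀ hX']
    linarith
  rw [mem_Icc]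
  refine ⟨Int.ceil_le.2 h6, ?_⟩
  have h7 := Int.le_ceil ((2 * (u : ℝ) - c) / X - 3)
  have h8 : (i : ℝ) < (⌈(2 * (u : ℝ) - c) / X - 3⌉ : ℝ) + 3 := by linarith
  have h9 : i < ⌈(2 * (u : ℝ) - c) / X - 3⌉ + 3 := by exact_mod_cast h8
  omega

theorem sum_bi_le {ι α : Type*} [DecidableEq α] (s : Finset ι) (g : ι → Finset α)
    (f : α → ℝ) (hf : ∀ a, 0 ≤ f a) : ∑ a ∈ s.biUnion g, f a ≤ ∑ i ∈ s, ∑ a ∈ g i, f a := by
  classical
  induction s using Finset.induction_on with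
  | empty => simp
  | insert i s hi ih =>
    rw [biUnion_insert, sum_insert hi]
    refine le_trans ?_ (add_le_add le_rfl ih)
    rw [← sum_union_inter]
    exact le_add_of_nonneg_right (sum_nonneg fun a _ => hf a)

/-- **covering**: from squares to convex bodies -/
theorem cover {X L : ℕ} (hX : 2 ≤ X) (hL : 1 ≤ L) {K : Set (ℝ × ℝ)} (hK : Convex ℝ K)
    (hKb : ∀ z ∈ K, |z.1| ≤ (X : ℝ) ^ L ∧ |z.2| ≤ (X : ℝ) ^ L) {a b : ℝ}
    (hsq : Set.Icc a (a + 4 * X) ×ˢ Set.Icc b (b + 4 * X) ⊆ K)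
    {T : Finset (ℤ × ℤ)} (hT : ∀ t : ℤ × ℤ, t ∈ T ↔ ((t.1 : ℝ), (t.2 : ℝ)) ∈ K)
    (P : ℤ × ℤ → Prop) [DecidablePred P] {f : ℤ × ℤ → ℝ} (hf : ∀ t, 0 ≤ f t) {B c : ℝ}
    (hc : 0 < c) (hB : 0 ≤ B)
    (h1 : ∀ U V : ℤ, |U| ≤ (X : ℤ) ^ (L + 1) → |V| ≤ (X : ℤ) ^ (L + 1) →
      ∑ t ∈ Bx U V X, f t ≤ B)
    (h2 : ∀ U V : ℤ, |U| ≤ (X : ℤ) ^ (L + 1) → |V| ≤ (X : ℤ) ^ (L + 1) →
      c ≤ (((Bx U V X).filter P).card : ℝ)) :
    ∑ t ∈ T, f t ≤ 9 * B / c * ((T.filter P).card : ℝ) := by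
  classical
  have hX0 : 0 < X := by omega
  have hXr : (0 : ℝ) < X := by exact_mod_cast hX0
  have hXz : (2 : ℤ) ≤ X := by exact_mod_cast hX
  have hpow : (X : ℤ) ^ L + X ≤ (X : ℤ) ^ (L + 1) := by
    have e1 : (X : ℤ) ≤ (X : ℤ) ^ L := by
      calc (X : ℤ) = (X : ℤ) ^ 1 := (pow_one _).symm
        _ ≤ (X : ℤ) ^ L := pow_le_pow_right₀ (by linarith) hL
    have e2 : (0 : ℤ) ≤ (X : ℤ) ^ L := by positivity
    rw [pow_succ]
    nlinarith
  -- points of T are bounded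
  have hTb : ∀ t ∈ T, |t.1| ≤ (X : ℤ) ^ L ∧ |t.2| ≤ (X : ℤ) ^ L := by
    intro t ht
    have e := hKb _ ((hT t).1 ht)
    simp only at e
    refine ⟨?_, ?_⟩
    · exact_mod_cast e.1
    · exact_mod_cast e.2
  obtain ⟨G, hG⟩ : ∃ G, G = T.image (ix X) := ⟨_, rfl⟩
  have hch : ∀ g : ℤ × ℤ, ∃ p : ℤ × ℤ, g ∈ G → p ∈ T ∧ ix X p = g := by
    intro g
    by_cases hg : g ∈ G
    · rw [hG, mem_image] at hg
      obtain ⟨p, hp1, hp2⟩ := hg
      exact ⟨p, fun _ => ⟨hp1, hp2⟩⟩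
    · exact ⟨0, fun h => absurd h hg⟩
  choose p hp using hch
  -- the first inequality
  have hA : ∑ t ∈ T, f t ≤ G.card * B := by
    have e1 : T ⊆ G.biUnion (fun g => Bx (g.1 * X) (g.2 * X) X) := by
      intro t ht
      rw [mem_biUnion]
      refine ⟨ix X t, by rw [hG]; exact mem_image_of_mem _ ht, ?_⟩
      rw [mem_Bx]
      exact ⟨ix_spec hX0 t.1, ix_spec hX0 t.2⟩
    calc ∑ t ∈ T, f t ≤ ∑ t ∈ G.biUnion (fun g => Bx (g.1 * X) (g.2 * X) X), f t :=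
          sum_le_sum_of_subset_of_nonneg e1 fun t _ _ => hf t
      _ ≤ ∑ g ∈ G, ∑ t ∈ Bx (g.1 * X) (g.2 * X) X, f t :=
          sum_bi_le G _ f hf
      _ ≤ ∑ g ∈ G, B := by
          refine sum_le_sum fun g hg => h1 _ _ ?_ ?_
          · obtain ⟨e2, e3⟩ := hp g hg
            have e4 := ix_spec hX0 (p g).1
            have e5 : ((p g).1 - 1) / (X : ℤ) = g.1 := congrArg Prod.fst e3
            rw [e5] at e4
            have e6 := abs_le.1 (hTb _ e2).1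
            rw [abs_le]
            constructor <;> linarith
          · obtain ⟨e2, e3⟩ := hp g hg
            have e4 := ix_spec hX0 (p g).2
            have e5 : ((p g).2 - 1) / (X : ℤ) = g.2 := congrArg Prod.snd e3
            rw [e5] at e4
            have e6 := abs_le.1 (hTb _ e2).2
            rw [abs_le]
            constructor <;> linarith
      _ = G.card * B := by rw [sum_const, nsmul_eq_mul]
  -- the midpoint boxes
  obtain ⟨q, hq⟩ : ∃ q : ℤ × ℤ → ℤ × ℤ, ∀ g, q g =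
    (⌊(((p g).1 : ℝ) + (a + 2 * X)) / 2⌋, ⌊(((p g).2 : ℝ) + (b + 2 * X)) / 2⌋) := ⟨_, fun _ => rfl⟩
  have hmid : ∀ g ∈ G, ∀ t ∈ Bx (q g).1 (q g).2 X, t ∈ T := by
    intro g hg t ht
    rw [mem_Bx, hq] at ht
    obtain ⟨⟨e1, e2⟩, e3, e4⟩ := ht
    rw [hT]
    have hpK := (hT _).1 (hp g hg).1
    have key : ∀ (x : ℤ) (c : ℝ) (u : ℤ), ⌊((x : ℝ) + c) / 2⌋ < u → u ≤ ⌊((x : ℝ) + c) / 2⌋ + X →
        c - 2 * X ≤ 2 * (u : ℝ) - x ∧ 2 * (u : ℝ) - x ≤ c + 2 * X := by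
      intro x c u f1 f2
      have f3 : ((x : ℝ) + c) / 2 < u := Int.floor_lt.1 f1
      have f4 : (u : ℝ) ≤ (⌊((x : ℝ) + c) / 2⌋ : ℝ) + X := by exact_mod_cast f2
      have f5 := Int.floor_le (((x : ℝ) + c) / 2)
      constructor <;> linarith
    have k1 := key _ _ _ e1 e2
    have k2 := key _ _ _ e3 e4
    have hs : ((2 * (t.1 : ℝ) - (p g).1, 2 * (t.2 : ℝ) - (p g).2) : ℝ × ℝ) ∈ K := by
      apply hsq
      rw [Set.mem_prod, Set.mem_Icc, Set.mem_Icc]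
      refine ⟨⟨?_, ?_⟩, ?_, ?_⟩ <;> simp only <;> linarith [k1.1, k1.2, k2.1, k2.2]
    have h3 := hK hpK hs (by norm_num : (0 : ℝ) ≤ 1 / 2) (by norm_num : (0 : ℝ) ≤ 1 / 2)
      (by norm_num)
    have h4 : ((1 / 2 : ℝ) • (((p g).1 : ℝ), ((p g).2 : ℝ)) +
        (1 / 2 : ℝ) • ((2 * (t.1 : ℝ) - (p g).1, 2 * (t.2 : ℝ) - (p g).2) : ℝ × ℝ)) =
        ((t.1 : ℝ), (t.2 : ℝ)) := by
      ext
      · simp only [Prod.smul_mk, Prod.mk_add_mk, smul_eq_mul]; ring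
      · simp only [Prod.smul_mk, Prod.mk_add_mk, smul_eq_mul]; ring
    rw [h4] at h3
    exact h3
  have hqb : ∀ g ∈ G, |(q g).1| ≤ (X : ℤ) ^ (L + 1) ∧ |(q g).2| ≤ (X : ℤ) ^ (L + 1) := by
    intro g hg
    have e1 : ((q g).1 + 1, (q g).2 + 1) ∈ Bx (q g).1 (q g).2 X := by
      rw [mem_Bx]
      constructor <;> constructor <;> simp only <;> linarith
    have e2 := hTb _ (hmid g hg _ e1)
    simp only at e2
    have e3 := abs_le.1 e2.1
    have e4 := abs_le.1 e2.2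
    rw [abs_le, abs_le]
    refine ⟨⟨?_, ?_⟩, ?_, ?_⟩ <;> linarith
  -- the second inequality
  have hBd : (G.card : ℝ) * c ≤ 9 * ((T.filter P).card : ℝ) := by
    have e1 : (G.card : ℝ) * c ≤ ∑ g ∈ G, (((Bx (q g).1 (q g).2 X).filter P).card : ℝ) := by
      rw [← nsmul_eq_mul, ← sum_const]
      exact sum_le_sum fun g hg => h2 _ _ (hqb g hg).1 (hqb g hg).2
    refine e1.trans ?_
    have e2 : ∑ g ∈ G, ((Bx (q g).1 (q g).2 X).filter P).card =
        ∑ t ∈ T.filter P, (G.filter (fun g => t ∈ Bx (q g).1 (q g).2 X)).card := by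
      have e3 : ∀ g ∈ G, ((Bx (q g).1 (q g).2 X).filter P).card =
          ((T.filter P).filter (fun t => t ∈ Bx (q g).1 (q g).2 X)).card := by
        intro g hg
        congr 1
        ext t
        rw [mem_filter, mem_filter, mem_filter]
        constructor
        · rintro ⟨f1, f2⟩
          exact ⟨⟨hmid g hg t f1, f2⟩, f1⟩
        · rintro ⟨⟨-, f2⟩, f1⟩
          exact ⟨f1, f2⟩
      rw [sum_congr rfl e3]
      simp only [card_eq_sum_ones, sum_filter]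
      rw [sum_comm]
      refine sum_congr rfl fun t _ => ?_
      by_cases hP : P t
      · simp [hP]
      · simp [hP]
    have e4 : ∀ t ∈ T.filter P, (G.filter (fun g => t ∈ Bx (q g).1 (q g).2 X)).card ≤ 9 := by
      intro t _
      have e5 : G.filter (fun g => t ∈ Bx (q g).1 (q g).2 X) ⊆
          Icc ⌈(2 * (t.1 : ℝ) - (a + 2 * X)) / X - 3⌉
            (⌈(2 * (t.1 : ℝ) - (a + 2 * X)) / X - 3⌉ + 2) ×ˢ
          Icc ⌈(2 * (t.2 : ℝ) - (b + 2 * X)) / X - 3⌉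
            (⌈(2 * (t.2 : ℝ) - (b + 2 * X)) / X - 3⌉ + 2) := by
        intro g hg
        rw [mem_filter, mem_Bx, hq] at hg
        obtain ⟨g1, ⟨g2, g3⟩, g4, g5⟩ := hg
        obtain ⟨f1, f2⟩ := hp g g1
        have f3 := ix_spec hX0 (p g).1
        have f4 : ((p g).1 - 1) / (X : ℤ) = g.1 := by
          have := congrArg Prod.fst f2
          exact this
        rw [f4] at f3
        have f5 := ix_spec hX0 (p g).2
        have f6 : ((p g).2 - 1) / (X : ℤ) = g.2 := by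
          have := congrArg Prod.snd f2
          exact this
        rw [f6] at f5
        rw [mem_product]
        exact ⟨few hX0 _ _ _ _ f3 ⟨g2, g3⟩, few hX0 _ _ _ _ f5 ⟨g4, g5⟩⟩
      refine (card_le_card e5).trans ?_
      rw [card_product, Int.card_Icc, Int.card_Icc]
      have e6 : ∀ z : ℤ, (z + 2 + 1 - z).toNat = 3 := by
        intro z
        have : z + 2 + 1 - z = 3 := by ring
        rw [this]
        rfl
      rw [e6, e6]
    have e7 : ∑ g ∈ G, ((Bx (q g).1 (q g).2 X).filter P).card ≤ 9 * (T.filter P).card := by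
      rw [e2]
      calc ∑ t ∈ T.filter P, (G.filter (fun g => t ∈ Bx (q g).1 (q g).2 X)).card
          ≤ ∑ _t ∈ T.filter P, 9 := sum_le_sum e4
        _ = 9 * (T.filter P).card := by rw [sum_const, smul_eq_mul, mul_comm]
    exact_mod_cast e7
  refine hA.trans ?_
  have e8 : (G.card : ℝ) ≤ 9 * ((T.filter P).card : ℝ) / c := by
    rw [le_div_iff₀ hc]
    exact hBd
  calc (G.card : ℝ) * B ≤ 9 * ((T.filter P).card : ℝ) / c * B :=
        mul_le_mul_of_nonneg_right e8 hB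
    _ = 9 * B / c * ((T.filter P).card : ℝ) := by ring

end Pool.Agent.T6.H64.AR
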