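import Mathlib
import Pool.Agent.T6.H64.AR.Cov

/-!
The coprime pairs in short squares.
-/

set_option autoImplicit false

namespace Pool.Agent.T6.H64.AR

open Finset

theorem mult_card (U : ℤ) (X p : ℕ) (hp : 0 < p) :
    (((Ioc U (U + X)).filter (fun u => (p : ℤ) ∣ u)).card : ℝ) ≤ X / p + 1 := by
  have hp' : (0 : ℤ) < p := by exact_mod_cast hp
  have hpr : (0 : ℝ) < p := by exact_mod_cast hp
  have hpq : (0 : ℚ) < p := by exact_mod_cast hp
  have h1 := Int.Ioc_filter_dvd_card U (U + X) hp'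
  have h2 : ((((Ioc U (U + X)).filter (fun u => (p : ℤ) ∣ u)).card : ℤ) : ℚ) ≤ X / p + 1 := by
    rw [h1]
    have h3 := Int.floor_le (((U + X : ℤ) : ℚ) / ((p : ℤ) : ℚ))
    have h4 := Int.sub_one_lt_floor ((U : ℚ) / ((p : ℤ) : ℚ))
    push_cast at h3 h4 ⊢
    have h5 : ((U : ℚ) + X) / p = U / p + X / p := by ring
    rw [h5] at h3
    have h6 : (0 : ℚ) ≤ X / p := by positivity
    refine max_le ?_ ?_
    · rw [h5]
      linarith
    · linarith
  have h3 : ((((Ioc U (U + X)).filter (fun u => (p : ℤ) ∣ u)).card : ℚ) : ℝ) ≤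
      ((X / p + 1 : ℚ) : ℝ) := by
    exact_mod_cast h2
  push_cast at h3
  exact h3

theorem card_Bx (U V : ℤ) (X : ℕ) : (Bx U V X).card = X ^ 2 := by
  unfold Bx
  rw [card_product, Int.card_Ioc, Int.card_Ioc]
  have e : ∀ U : ℤ, (U + X - U).toNat = X := by
    intro U
    have : U + (X : ℤ) - U = X := by ring
    rw [this, Int.toNat_natCast]
  rw [e, e, sq]

theorem sum_odd (M : ℕ) : ∑ m ∈ Icc 1 M, 1 / ((2 * m + 1 : ℕ) : ℝ) ^ 2 ≤
    1 / 4 - 1 / (4 * (M + 1 : ℝ)) := by
  induction M with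
  | zero => norm_num
  | succ M ih =>
    rw [sum_Icc_succ_top (by omega)]
    refine (add_le_add ih le_rfl).trans ?_
    have hM : (0 : ℝ) ≤ M := Nat.cast_nonneg M
    push_cast
    rw [← sub_nonneg]
    have e : (1 / 4 - 1 / (4 * ((M : ℝ) + 1 + 1)) -
        (1 / 4 - 1 / (4 * ((M : ℝ) + 1)) + 1 / (2 * ((M : ℝ) + 1) + 1) ^ 2)) =
        1 / (4 * (M + 1) * (M + 2) * (2 * M + 3) ^ 2) := by
      field_simp
      ring
    rw [e]
    positivity

theorem sum_primes (X : ℕ) :
    ∑ p ∈ (range (X + 1)).filter Nat.Prime, 1 / (p : ℝ) ^ 2 ≤ 1 / 2 := by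
  have h1 : (range (X + 1)).filter Nat.Prime ⊆ insert 2 ((Icc 1 X).image (fun m => 2 * m + 1)) := by
    intro p hp
    rw [mem_filter, mem_range] at hp
    rw [mem_insert, mem_image]
    rcases hp.2.eq_two_or_odd with h | h
    · exact Or.inl h
    · refine Or.inr ⟨p / 2, ?_, by omega⟩
      have := hp.2.two_le
      rw [mem_Icc]
      omega
  refine (sum_le_sum_of_subset_of_nonneg h1 fun p _ _ => by positivity).trans ?_
  have h2 : (2 : ℕ) ∉ (Icc 1 X).image (fun m => 2 * m + 1) := by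
    rw [mem_image]
    rintro ⟨m, -, hm⟩
    omega
  rw [sum_insert h2, sum_image (fun a _ b _ h => by omega)]
  have h3 := sum_odd X
  have h4 : (0 : ℝ) ≤ 1 / (4 * (X + 1 : ℝ)) := by positivity
  have h5 : (1 : ℝ) / ((2 : ℕ) : ℝ) ^ 2 = 1 / 4 := by norm_num
  rw [h5]
  linarith

theorem few_large {X L : ℕ} (hX : 2 ≤ X) {u : ℤ} (hu : u ≠ 0) (hb : |u| ≤ (X : ℤ) ^ (L + 1)) :
    ((u.natAbs.primeFactors).filter (fun p => X < p)).card ≤ L + 1 := by
  obtain ⟨S, hS⟩ : ∃ S, S = (u.natAbs.primeFactors).filter (fun p => X < p) := ⟨_, rfl⟩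
  rw [← hS]
  have hu0 : u.natAbs ≠ 0 := Int.natAbs_ne_zero.2 hu
  have h1 : ∏ p ∈ S, p ∣ u.natAbs := by
    refine dvd_trans ?_ (Nat.prod_primeFactors_dvd u.natAbs)
    exact prod_dvd_prod_of_subset _ _ _ (by rw [hS]; exact filter_subset _ _)
  have h2 : X ^ S.card ≤ ∏ p ∈ S, p := by
    rw [← prod_const]
    refine prod_le_prod' fun p hp => ?_
    rw [hS, mem_filter] at hp
    exact hp.2.le
  have h3 : u.natAbs ≤ X ^ (L + 1) := by
    have h4 : ((u.natAbs : ℕ) : ℤ) ≤ ((X ^ (L + 1) : ℕ) : ℤ) := by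
      rw [Int.natCast_natAbs]
      push_cast
      exact hb
    exact_mod_cast h4
  have h4 : X ^ S.card ≤ X ^ (L + 1) :=
    (h2.trans (Nat.le_of_dvd (Nat.pos_of_ne_zero hu0) h1)).trans h3
  exact (Nat.pow_le_pow_iff_right (by omega)).1 h4

/-- the pairs that are not coprime -/
theorem bad_card {X L : ℕ} (hX : 2 ≤ X) (hL : 1 ≤ L) {U V : ℤ} (hU : |U| ≤ (X : ℤ) ^ L)
    :
    (((Bx U V X).filter (fun t => ¬ IsCoprime t.1 t.2)).card : ℝ) ≤
      (X : ℝ) ^ 2 / 2 + 2 * X * (1 + Real.log X) + X + 2 * (L + 1) * X + X := by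
  classical
  have hXz : (2 : ℤ) ≤ X := by exact_mod_cast hX
  have hXr : (0 : ℝ) < X := by
    have : 0 < X := by omega
    exact_mod_cast this
  have hpow : (X : ℤ) ^ L + X ≤ (X : ℤ) ^ (L + 1) := by
    have e1 : (X : ℤ) ≤ (X : ℤ) ^ L := by
      calc (X : ℤ) = (X : ℤ) ^ 1 := (pow_one _).symm
        _ ≤ (X : ℤ) ^ L := pow_le_pow_right₀ (by linarith) hL
    have e2 : (0 : ℤ) ≤ (X : ℤ) ^ L := by positivity
    rw [pow_succ]
    nlinarith
  -- the three sets
  obtain ⟨A, hA⟩ : ∃ A : Finset (ℤ × ℤ), A = ((range (X + 1)).filter Nat.Prime).biUnion (fun p =>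
    ((Ioc U (U + X)).filter (fun u => (p : ℤ) ∣ u)) ×ˢ
      ((Ioc V (V + X)).filter (fun u => (p : ℤ) ∣ u))) := ⟨_, rfl⟩
  obtain ⟨B, hB⟩ : ∃ B : Finset (ℤ × ℤ), B = ((Ioc U (U + X)).filter (fun u => u ≠ 0)).biUnion
    (fun u => ((u.natAbs.primeFactors).filter (fun p => X < p)).biUnion (fun p =>
      ({u} : Finset ℤ) ×ˢ ((Ioc V (V + X)).filter (fun v => (p : ℤ) ∣ v)))) := ⟨_, rfl⟩
  obtain ⟨D, hD⟩ : ∃ D : Finset (ℤ × ℤ), D = ({0} : Finset ℤ) ×ˢ (Ioc V (V + X)) := ⟨_, rfl⟩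
  have hsub : (Bx U V X).filter (fun t => ¬ IsCoprime t.1 t.2) ⊆ A ∪ B ∪ D := by
    rintro ⟨u, v⟩ ht
    rw [mem_filter, mem_Bx] at ht
    obtain ⟨⟨hu, hv⟩, hn⟩ := ht
    simp only at hu hv hn
    rw [mem_union, mem_union]
    by_cases h0 : u = 0
    · right
      rw [hD, mem_product, mem_singleton, mem_Ioc]
      exact ⟨h0, hv⟩
    · left
      rw [Int.isCoprime_iff_gcd_eq_one] at hn
      obtain ⟨p, hp, hpd⟩ := Nat.exists_prime_and_dvd hn
      have h1 : (p : ℤ) ∣ u := (Int.natCast_dvd_natCast.2 hpd).trans (Int.gcd_dvd_left ..)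
      have h2 : (p : ℤ) ∣ v := (Int.natCast_dvd_natCast.2 hpd).trans (Int.gcd_dvd_right ..)
      rcases Nat.lt_or_ge X p with h | h
      · right
        rw [hB, mem_biUnion]
        refine ⟨u, ?_, ?_⟩
        · rw [mem_filter, mem_Ioc]
          exact ⟨hu, h0⟩
        · rw [mem_biUnion]
          refine ⟨p, ?_, ?_⟩
          · rw [mem_filter, Nat.mem_primeFactors]
            exact ⟨⟨hp, Int.natCast_dvd.1 h1, Int.natAbs_ne_zero.2 h0⟩, h⟩
          · rw [mem_product, mem_singleton, mem_filter, mem_Ioc]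
            exact ⟨rfl, hv, h2⟩
      · left
        rw [hA, mem_biUnion]
        refine ⟨p, ?_, ?_⟩
        · rw [mem_filter, mem_range]
          exact ⟨by omega, hp⟩
        · rw [mem_product, mem_filter, mem_filter, mem_Ioc, mem_Ioc]
          exact ⟨⟨hu, h1⟩, hv, h2⟩
  have hAc : (A.card : ℝ) ≤ (X : ℝ) ^ 2 / 2 + 2 * X * (1 + Real.log X) + X := by
    have e1 : (A.card : ℝ) ≤ ∑ p ∈ (range (X + 1)).filter Nat.Prime, ((X : ℝ) / p + 1) ^ 2 := by
      have e2 : A.card ≤ ∑ p ∈ (range (X + 1)).filter Nat.Prime,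
          (((Ioc U (U + X)).filter (fun u => (p : ℤ) ∣ u)) ×ˢ
            ((Ioc V (V + X)).filter (fun u => (p : ℤ) ∣ u))).card := by
        rw [hA]
        exact card_biUnion_le
      have e3 : (A.card : ℝ) ≤ ∑ p ∈ (range (X + 1)).filter Nat.Prime,
          ((((Ioc U (U + X)).filter (fun u => (p : ℤ) ∣ u)) ×ˢ
            ((Ioc V (V + X)).filter (fun u => (p : ℤ) ∣ u))).card : ℝ) := by
        exact_mod_cast e2
      refine e3.trans (sum_le_sum fun p hp => ?_)
      rw [mem_filter] at hp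
      rw [card_product, Nat.cast_mul, sq]
      have h1 := mult_card U X p hp.2.pos
      have h2 := mult_card V X p hp.2.pos
      exact mul_le_mul h1 h2 (Nat.cast_nonneg _) (by positivity)
    refine e1.trans ?_
    have e4 : ∑ p ∈ (range (X + 1)).filter Nat.Prime, ((X : ℝ) / p + 1) ^ 2 =
        (X : ℝ) ^ 2 * ∑ p ∈ (range (X + 1)).filter Nat.Prime, 1 / (p : ℝ) ^ 2 +
        2 * X * ∑ p ∈ (range (X + 1)).filter Nat.Prime, 1 / (p : ℝ) +
        (((range (X + 1)).filter Nat.Prime).card : ℝ) := by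
      rw [mul_sum, mul_sum, card_eq_sum_ones, Nat.cast_sum, ← sum_add_distrib, ← sum_add_distrib]
      refine sum_congr rfl fun p _ => ?_
      push_cast
      ring
    rw [e4]
    have e5 := sum_primes X
    have e6 : ∑ p ∈ (range (X + 1)).filter Nat.Prime, 1 / (p : ℝ) ≤ 1 + Real.log X := by
      have e7 : ∑ p ∈ (range (X + 1)).filter Nat.Prime, 1 / (p : ℝ) ≤
          ∑ n ∈ Icc 1 X, 1 / (n : ℝ) := by
        refine sum_le_sum_of_subset_of_nonneg ?_ fun p _ _ => by positivity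
        intro p hp
        rw [mem_filter, mem_range] at hp
        rw [mem_Icc]
        exact ⟨hp.2.one_lt.le, by omega⟩
      refine e7.trans ?_
      have e8 := harmonic_le_one_add_log X
      rw [harmonic_eq_sum_Icc] at e8
      push_cast at e8
      simpa [one_div] using e8
    have e9 : (((range (X + 1)).filter Nat.Prime).card : ℝ) ≤ X := by
      have e10 : (range (X + 1)).filter Nat.Prime ⊆ Icc 1 X := by
        intro p hp
        rw [mem_filter, mem_range] at hp
        rw [mem_Icc]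
        exact ⟨hp.2.one_lt.le, by omega⟩
      have e11 := card_le_card e10
      rw [Nat.card_Icc] at e11
      have e12 : ((range (X + 1)).filter Nat.Prime).card ≤ X := by omega
      exact_mod_cast e12
    have e13 : (X : ℝ) ^ 2 * ∑ p ∈ (range (X + 1)).filter Nat.Prime, 1 / (p : ℝ) ^ 2 ≤
        (X : ℝ) ^ 2 / 2 := by
      calc (X : ℝ) ^ 2 * ∑ p ∈ (range (X + 1)).filter Nat.Prime, 1 / (p : ℝ) ^ 2
          ≤ (X : ℝ) ^ 2 * (1 / 2) := mul_le_mul_of_nonneg_left e5 (by positivity)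
        _ = (X : ℝ) ^ 2 / 2 := by ring
    have e14 : 2 * (X : ℝ) * ∑ p ∈ (range (X + 1)).filter Nat.Prime, 1 / (p : ℝ) ≤
        2 * X * (1 + Real.log X) := mul_le_mul_of_nonneg_left e6 (by positivity)
    linarith
  have hBc : (B.card : ℝ) ≤ 2 * (L + 1) * X := by
    have e1 : B.card ≤ ∑ u ∈ (Ioc U (U + X)).filter (fun u => u ≠ 0),
        ∑ p ∈ (u.natAbs.primeFactors).filter (fun p => X < p),
          (({u} : Finset ℤ) ×ˢ ((Ioc V (V + X)).filter (fun v => (p : ℤ) ∣ v))).card := by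
      rw [hB]
      exact card_biUnion_le.trans (sum_le_sum fun u _ => card_biUnion_le)
    have e2 : (B.card : ℝ) ≤ ∑ u ∈ (Ioc U (U + X)).filter (fun u => u ≠ 0),
        ∑ p ∈ (u.natAbs.primeFactors).filter (fun p => X < p),
          ((({u} : Finset ℤ) ×ˢ ((Ioc V (V + X)).filter (fun v => (p : ℤ) ∣ v))).card : ℝ) := by
      exact_mod_cast e1
    refine e2.trans ?_
    have e3 : ∀ u ∈ (Ioc U (U + X)).filter (fun u => u ≠ 0),
        ∑ p ∈ (u.natAbs.primeFactors).filter (fun p => X < p),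
          ((({u} : Finset ℤ) ×ˢ ((Ioc V (V + X)).filter (fun v => (p : ℤ) ∣ v))).card : ℝ) ≤
        2 * (L + 1) := by
      intro u hu
      rw [mem_filter, mem_Ioc] at hu
      have e4 : ∀ p ∈ (u.natAbs.primeFactors).filter (fun p => X < p),
          ((({u} : Finset ℤ) ×ˢ ((Ioc V (V + X)).filter (fun v => (p : ℤ) ∣ v))).card : ℝ) ≤
            2 := by
        intro p hp
        rw [mem_filter] at hp
        rw [card_product, card_singleton, one_mul]
        have hp0 : 0 < p := by omega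
        refine (mult_card V X p hp0).trans ?_
        have hpr : (0 : ℝ) < p := by exact_mod_cast hp0
        have : (X : ℝ) / p ≤ 1 := by
          rw [div_le_one hpr]
          exact_mod_cast hp.2.le
        linarith
      refine (sum_le_sum e4).trans ?_
      rw [sum_const, nsmul_eq_mul]
      have hub : |u| ≤ (X : ℤ) ^ (L + 1) := by
        have := abs_le.1 hU
        rw [abs_le]
        constructor <;> linarith [hu.1.1, hu.1.2]
      have e5 := few_large hX hu.2 hub
      have e6 : (((u.natAbs.primeFactors).filter (fun p => X < p)).card : ℝ) ≤ L + 1 := by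
        exact_mod_cast e5
      linarith
    refine (sum_le_sum e3).trans ?_
    rw [sum_const, nsmul_eq_mul]
    have e7 : ((Ioc U (U + X)).filter (fun u => u ≠ 0)).card ≤ X := by
      refine (card_filter_le _ _).trans ?_
      rw [Int.card_Ioc]
      have : U + (X : ℤ) - U = X := by ring
      rw [this, Int.toNat_natCast]
    have e8 : (((Ioc U (U + X)).filter (fun u => u ≠ 0)).card : ℝ) ≤ X := by exact_mod_cast e7
    have e9 : (0 : ℝ) ≤ 2 * (L + 1) := by positivity
    nlinarith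
  have hDc : (D.card : ℝ) ≤ X := by
    rw [hD, card_product, card_singleton, one_mul, Int.card_Ioc]
    have : V + (X : ℤ) - V = X := by ring
    rw [this, Int.toNat_natCast]
  have h1 : (((Bx U V X).filter (fun t => ¬ IsCoprime t.1 t.2)).card : ℝ) ≤
      (A.card : ℝ) + B.card + D.card := by
    have h2 := (card_le_card hsub).trans ((card_union_le _ _).trans
      (Nat.add_le_add (card_union_le _ _) le_rfl))
    exact_mod_cast h2
  linarith

/-- points of a square on a line through the origin -/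
theorem line_card (U V : ℤ) (X : ℕ) {l : ℤ × ℤ} (hl : l ≠ 0) :
    ((Bx U V X).filter (fun t => l.1 * t.1 + l.2 * t.2 = 0)).card ≤ X := by
  classical
  have hc : ∀ U : ℤ, (Ioc U (U + (X : ℤ))).card = X := by
    intro U
    rw [Int.card_Ioc]
    have : U + (X : ℤ) - U = X := by ring
    rw [this, Int.toNat_natCast]
  by_cases h2 : l.2 = 0
  · have h1 : l.1 ≠ 0 := fun h => hl (Prod.ext h h2)
    refine le_trans (card_le_card_of_injOn Prod.snd (t := Ioc V (V + X)) ?_ ?_) (hc V).le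
    · intro t ht
      rw [mem_coe, mem_filter, mem_Bx] at ht
      rw [mem_coe, mem_Ioc]
      exact ht.1.2
    · intro t ht s hs hts
      rw [mem_coe, mem_filter] at ht hs
      rw [h2, zero_mul, add_zero] at ht hs
      have e1 := (mul_eq_zero.1 ht.2).resolve_left h1
      have e2 := (mul_eq_zero.1 hs.2).resolve_left h1
      exact Prod.ext (by rw [e1, e2]) hts
  · refine le_trans (card_le_card_of_injOn Prod.fst (t := Ioc U (U + X)) ?_ ?_) (hc U).le
    · intro t ht
      rw [mem_coe, mem_filter, mem_Bx] at ht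
      rw [mem_coe, mem_Ioc]
      exact ht.1.1
    · intro t ht s hs hts
      rw [mem_coe, mem_filter] at ht hs
      have e1 : l.2 * (t.2 - s.2) = 0 := by
        have h3 := ht.2
        have h4 := hs.2
        rw [hts] at h3
        linear_combination h3 - h4
      have e2 := (mul_eq_zero.1 e1).resolve_left h2
      exact Prod.ext hts (by linarith)

/-- **coprime pairs in short squares** -/
theorem cop_lower {ι : Type*} [Fintype ι] (l : ι → ℤ × ℤ) (hl : ∀ j, l j ≠ 0) (L : ℕ) :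
    ∃ X₀ : ℕ, ∀ X : ℕ, X₀ ≤ X → ∀ U V : ℤ, |U| ≤ (X : ℤ) ^ L →
      ∀ P : ℤ × ℤ → Prop, ∀ [DecidablePred P],
      (∀ t : ℤ × ℤ, IsCoprime t.1 t.2 → (∀ j, (l j).1 * t.1 + (l j).2 * t.2 ≠ 0) → P t) →
      (X : ℝ) ^ 2 / 8 ≤ (((Bx U V X).filter P).card : ℝ) := by
  classical
  have hlog : ∀ᶠ X : ℕ in Filter.atTop, 2 * (1 + Real.log X) + 1 + 2 * ((L + 1 : ℕ) + 1) + 1 +
      Fintype.card ι ≤ (X : ℝ) * (3 / 8) := by
    have h1 : Filter.Tendsto (fun X : ℝ => Real.log X / X) Filter.atTop (nhds 0) := by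
      have := Real.tendsto_pow_log_div_mul_add_atTop 1 0 1 one_ne_zero
      simpa using this
    have h2 := (h1.comp tendsto_natCast_atTop_atTop).eventually
      (gt_mem_nhds (show (0 : ℝ) < 1 / 16 by norm_num))
    filter_upwards [h2, Filter.eventually_ge_atTop
      (4 * (4 + 2 * (L + 2) + 1 + Fintype.card ι) + 1)] with X h3 h4
    have hX : (0 : ℝ) < X := by
      have : 0 < X := by omega
      exact_mod_cast this
    simp only [Function.comp] at h3
    rw [div_lt_iff₀ hX] at h3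
    have h5 : ((4 * (4 + 2 * (L + 2) + 1 + Fintype.card ι) + 1 : ℕ) : ℝ) ≤ X := by
      exact_mod_cast h4
    push_cast at h5 ⊢
    have h6 : (0 : ℝ) ≤ L := Nat.cast_nonneg L
    have h7 : (0 : ℝ) ≤ Fintype.card ι := Nat.cast_nonneg _
    linarith
  obtain ⟨X₁, hX₁⟩ := Filter.eventually_atTop.1 hlog
  refine ⟨max X₁ 2, fun X hX U V hU P _ hP => ?_⟩
  have h1 := hX₁ X ((le_max_left _ _).trans hX)
  have hX2 : 2 ≤ X := (le_max_right _ _).trans hX
  have hXz : (2 : ℤ) ≤ X := by exact_mod_cast hX2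
  have hXr : (0 : ℝ) < X := by
    have : 0 < X := by omega
    exact_mod_cast this
  have hU' : |U| ≤ (X : ℤ) ^ (L + 1) := hU.trans (pow_le_pow_right₀ (by linarith) (by omega))
  have h2 := bad_card (V := V) hX2 (by omega : 1 ≤ L + 1) hU'
  have hsub : Bx U V X ⊆ (Bx U V X).filter P ∪ (Bx U V X).filter (fun t => ¬ IsCoprime t.1 t.2) ∪
      (univ : Finset ι).biUnion (fun j => (Bx U V X).filter
        (fun t => (l j).1 * t.1 + (l j).2 * t.2 = 0)) := by
    intro t ht
    rw [mem_union, mem_union, mem_filter, mem_filter, mem_biUnion]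
    by_cases h3 : IsCoprime t.1 t.2
    · by_cases h4 : ∀ j, (l j).1 * t.1 + (l j).2 * t.2 ≠ 0
      · exact Or.inl (Or.inl ⟨ht, hP t h3 h4⟩)
      · push Not at h4
        obtain ⟨j, hj⟩ := h4
        exact Or.inr ⟨j, mem_univ _, mem_filter.2 ⟨ht, hj⟩⟩
    · exact Or.inl (Or.inr ⟨ht, h3⟩)
  have h3 := (card_le_card hsub).trans ((card_union_le _ _).trans
      (Nat.add_le_add (card_union_le _ _) card_biUnion_le))
  rw [card_Bx] at h3
  have h4 : ∑ j : ι, ((Bx U V X).filter (fun t => (l j).1 * t.1 + (l j).2 * t.2 = 0)).card ≤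
      Fintype.card ι * X := by
    refine (sum_le_sum fun j _ => line_card U V X (hl j)).trans ?_
    rw [sum_const, smul_eq_mul]
    exact le_rfl
  have h5 : ((X ^ 2 : ℕ) : ℝ) ≤ (((Bx U V X).filter P).card : ℝ) +
      (((Bx U V X).filter (fun t => ¬ IsCoprime t.1 t.2)).card : ℝ) + Fintype.card ι * X := by
    exact_mod_cast h3.trans (Nat.add_le_add_left h4 _)
  have h6 := mul_le_mul_of_nonneg_left h1 hXr.le
  push_cast at h5 h2 h6
  have h7 : (X : ℝ) * (2 * (1 + Real.log X) + 1 + 2 * ((L : ℝ) + 1 + 1) + 1 + Fintype.card ι) =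
    2 * X * (1 + Real.log X) + X + 2 * ((L : ℝ) + 1 + 1) * X + X + Fintype.card ι * X := by ring
  have h8 : (X : ℝ) * (X * (3 / 8)) = 3 / 8 * X ^ 2 := by ring
  rw [h7, h8] at h6
  linarith

end Pool.Agent.T6.H64.AR
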