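import Mathlib
import Pool.Agent.T6.H64.AR.Cop

/-!
Averages over convex bodies, and the triangles of the Farey fractions of an interval.
-/

set_option autoImplicit false

namespace Pool.Agent.T6.H64.AR

open Finset

/-- `K` is a convex subset of the square `|x|, |y| ≤ X ^ L` and contains a square of side `X` -/
structure Body (X L : ℕ) (K : Set (ℝ × ℝ)) : Prop where
  conv : Convex ℝ K
  bdd : ∀ z ∈ K, |z.1| ≤ (X : ℝ) ^ L ∧ |z.2| ≤ (X : ℝ) ^ L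
  sq : ∃ a b : ℝ, Set.Icc a (a + X) ×ˢ Set.Icc b (b + X) ⊆ K

theorem Body.finite {X L : ℕ} {K : Set (ℝ × ℝ)} (h : Body X L K) :
    {t : ℤ × ℤ | ((t.1 : ℝ), (t.2 : ℝ)) ∈ K}.Finite := by
  apply Set.Finite.subset (s := ((Icc (-(X : ℤ) ^ L) ((X : ℤ) ^ L) ×ˢ
    Icc (-(X : ℤ) ^ L) ((X : ℤ) ^ L) : Finset (ℤ × ℤ)) : Set (ℤ × ℤ))) (finite_toSet _)
  intro t ht
  have h1 := h.bdd _ ht
  simp only at h1
  rw [mem_coe, mem_product, mem_Icc, mem_Icc]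
  have h2 : |t.1| ≤ (X : ℤ) ^ L := by exact_mod_cast h1.1
  have h3 : |t.2| ≤ (X : ℤ) ^ L := by exact_mod_cast h1.2
  exact ⟨abs_le.1 h2, abs_le.1 h3⟩

/-- **averages over convex bodies** -/
theorem body_avg {ι : Type*} [Fintype ι] (l : ι → ℤ × ℤ) (hl : ∀ j, l j ≠ 0) (L : ℕ) :
    ∃ X₀ : ℕ, ∀ X : ℕ, X₀ ≤ X → ∀ K : Set (ℝ × ℝ), Body X L K →
      ∀ T : Finset (ℤ × ℤ), (∀ t : ℤ × ℤ, t ∈ T ↔ ((t.1 : ℝ), (t.2 : ℝ)) ∈ K) →
      ∀ P : ℤ × ℤ → Prop, ∀ [DecidablePred P],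
      (∀ t : ℤ × ℤ, IsCoprime t.1 t.2 → (∀ j, (l j).1 * t.1 + (l j).2 * t.2 ≠ 0) → P t) →
      (X : ℝ) ^ 2 / 200 ≤ ((T.filter P).card : ℝ) ∧
      ∀ f : ℤ × ℤ → ℝ, (∀ t, 0 ≤ f t) → ∀ B : ℝ, 0 ≤ B →
        (∀ U V : ℤ, |U| ≤ ((X / 4 : ℕ) : ℤ) ^ (2 * L + 3) → |V| ≤ ((X / 4 : ℕ) : ℤ) ^ (2 * L + 3) →
          ∑ t ∈ Bx U V (X / 4), f t ≤ B * ((X / 4 : ℕ) : ℝ) ^ 2) →
        ∑ t ∈ T, f t ≤ 72 * B * ((T.filter P).card : ℝ) := by
  classical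
  obtain ⟨X₁, hX₁⟩ := cop_lower l hl (2 * L + 3)
  refine ⟨4 * X₁ + 64, fun X hX K hK T hT P _ hP => ?_⟩
  obtain ⟨Y, hY⟩ : ∃ Y : ℕ, Y = X / 4 := ⟨_, rfl⟩
  rw [← hY]
  have hY1 : X₁ ≤ Y := by omega
  have hY2 : 16 ≤ Y := by omega
  have hYX : X ≤ 5 * Y := by omega
  have hYX4 : 4 * Y ≤ X := by omega
  have hYr : (16 : ℝ) ≤ Y := by exact_mod_cast hY2
  have hXY : (X : ℝ) ≤ 5 * Y := by exact_mod_cast hYX
  have hXY4 : 4 * (Y : ℝ) ≤ X := by exact_mod_cast hYX4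
  have hX0 : (0 : ℝ) ≤ X := Nat.cast_nonneg X
  have hpow : (X : ℝ) ^ L ≤ (Y : ℝ) ^ (2 * L + 2) := by
    have h1 : (X : ℝ) ≤ (Y : ℝ) ^ 2 := by nlinarith
    calc (X : ℝ) ^ L ≤ ((Y : ℝ) ^ 2) ^ L := pow_le_pow_left₀ hX0 h1 L
      _ = (Y : ℝ) ^ (2 * L) := by rw [pow_mul]
      _ ≤ (Y : ℝ) ^ (2 * L + 2) := pow_le_pow_right₀ (by linarith) (by omega)
  have hKb : ∀ z ∈ K, |z.1| ≤ (Y : ℝ) ^ (2 * L + 2) ∧ |z.2| ≤ (Y : ℝ) ^ (2 * L + 2) := fun z hz =>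
    ⟨(hK.bdd z hz).1.trans hpow, (hK.bdd z hz).2.trans hpow⟩
  obtain ⟨a, b, hab⟩ := hK.sq
  have hsq : Set.Icc a (a + 4 * (Y : ℝ)) ×ˢ Set.Icc b (b + 4 * (Y : ℝ)) ⊆ K := by
    refine subset_trans ?_ hab
    apply Set.prod_mono
    · exact Set.Icc_subset_Icc le_rfl (by linarith)
    · exact Set.Icc_subset_Icc le_rfl (by linarith)
  have hbox : ∀ U V : ℤ, |U| ≤ (Y : ℤ) ^ (2 * L + 2 + 1) → |V| ≤ (Y : ℤ) ^ (2 * L + 2 + 1) →
      (Y : ℝ) ^ 2 / 8 ≤ (((Bx U V Y).filter P).card : ℝ) := fun U V hU _ =>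
    hX₁ Y hY1 U V hU P hP
  constructor
  · -- a box inside of `K`
    have hin : ∀ t ∈ Bx ⌊a⌋ ⌊b⌋ Y, t ∈ T := by
      intro t ht
      rw [mem_Bx] at ht
      rw [hT]
      apply hsq
      have k : ∀ (a : ℝ) (u : ℤ), ⌊a⌋ < u → u ≤ ⌊a⌋ + Y → a ≤ u ∧ (u : ℝ) ≤ a + 4 * Y := by
        intro a u h1 h2
        have h3 := (Int.floor_lt.1 h1).le
        have h4 : (u : ℝ) ≤ (⌊a⌋ : ℝ) + Y := by exact_mod_cast h2
        have h5 := Int.floor_le a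
        exact ⟨h3, by linarith⟩
      rw [Set.mem_prod, Set.mem_Icc, Set.mem_Icc]
      exact ⟨k a _ ht.1.1 ht.1.2, k b _ ht.2.1 ht.2.2⟩
    have h1 : (⌊a⌋ + 1, ⌊b⌋ + 1) ∈ Bx ⌊a⌋ ⌊b⌋ Y := by
      have : (16 : ℤ) ≤ Y := by exact_mod_cast hY2
      rw [mem_Bx]
      constructor <;> constructor <;> simp only <;> linarith
    have h2 := hKb _ ((hT _).1 (hin _ h1))
    simp only at h2
    have hz : (Y : ℤ) ^ (2 * L + 2) + 1 ≤ (Y : ℤ) ^ (2 * L + 2 + 1) := by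
      have h3 : (16 : ℤ) ≤ Y := by exact_mod_cast hY2
      have h4 : (1 : ℤ) ≤ (Y : ℤ) ^ (2 * L + 2) := one_le_pow₀ (by linarith)
      rw [pow_succ (Y : ℤ) (2 * L + 2)]
      nlinarith
    have h3 : |⌊a⌋| ≤ (Y : ℤ) ^ (2 * L + 2 + 1) := by
      have h4 : |⌊a⌋ + 1| ≤ (Y : ℤ) ^ (2 * L + 2) := by exact_mod_cast h2.1
      have h5 := abs_le.1 h4
      rw [abs_le]
      constructor <;> linarith
    have h4 : |⌊b⌋| ≤ (Y : ℤ) ^ (2 * L + 2 + 1) := by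
      have h4 : |⌊b⌋ + 1| ≤ (Y : ℤ) ^ (2 * L + 2) := by exact_mod_cast h2.2
      have h5 := abs_le.1 h4
      rw [abs_le]
      constructor <;> linarith
    have h5 := hbox _ _ h3 h4
    have h6 : ((Bx ⌊a⌋ ⌊b⌋ Y).filter P).card ≤ (T.filter P).card := by
      apply card_le_card
      intro t ht
      rw [mem_filter] at ht ⊢
      exact ⟨hin t ht.1, ht.2⟩
    have h7 : (((Bx ⌊a⌋ ⌊b⌋ Y).filter P).card : ℝ) ≤ ((T.filter P).card : ℝ) := by exact_mod_cast h6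
    refine le_trans ?_ (h5.trans h7)
    nlinarith
  · intro f hf B hB h1
    have hYpos : (0 : ℝ) < (Y : ℝ) ^ 2 := by positivity
    have h2 := cover (X := Y) (L := 2 * L + 2) (by omega) (by omega) hK.conv hKb hsq hT P hf
      (B := B * (Y : ℝ) ^ 2) (c := (Y : ℝ) ^ 2 / 8) (by positivity) (by positivity) h1 hbox
    refine h2.trans (le_of_eq ?_)
    field_simp
    ring

/-- the points `(x, y)` with `0 < y ≤ Q` and `α ≤ x / y ≤ β` -/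
def tri (α β : ℝ) (Q : ℕ) : Set (ℝ × ℝ) :=
  {z | 0 < z.2 ∧ z.2 ≤ Q ∧ α * z.2 ≤ z.1 ∧ z.1 ≤ β * z.2}

set_option maxHeartbeats 1000000 in
theorem tri_body (M : ℕ) (δ : ℝ) (hδ : 0 < δ) : ∃ L : ℕ, ∀ X₀ : ℕ, ∃ Q₀ : ℕ, ∀ Q : ℕ, Q₀ ≤ Q →
    ∀ α β : ℝ, -(M : ℝ) ≤ α → β ≤ M → (Q : ℝ) ^ (δ - 1) ≤ β - α →
      ∃ X : ℕ, X₀ ≤ X ∧ Body X L (tri α β Q) := by
  refine ⟨⌈4 / δ⌉₊, fun X₀ => ?_⟩
  have hM : (0 : ℝ) ≤ M := Nat.cast_nonneg M
  -- `Q ^ δ / (4 (1 + M)) ≥ Q ^ (δ / 2) + 1`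
  have hlim : Filter.Tendsto (fun Q : ℕ => (Q : ℝ) ^ (δ / 2)) Filter.atTop Filter.atTop :=
    (tendsto_rpow_atTop (by linarith)).comp tendsto_natCast_atTop_atTop
  obtain ⟨Q₁, hQ₁⟩ := Filter.eventually_atTop.1
    (hlim.eventually_ge_atTop (4 * (1 + (M : ℝ)) * (X₀ + 3)))
  refine ⟨max Q₁ (M + 1), fun Q hQ α β hα hβ hab => ?_⟩
  have hQ1 := hQ₁ Q ((le_max_left _ _).trans hQ)
  have hQM : M + 1 ≤ Q := (le_max_right _ _).trans hQ
  have hQr : (M : ℝ) + 1 ≤ Q := by exact_mod_cast hQM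
  have hQ0 : (0 : ℝ) < Q := by linarith
  have hQone : (1 : ℝ) ≤ Q := by linarith
  obtain ⟨w, hw⟩ : ∃ w : ℝ, w = (Q : ℝ) ^ (δ / 2) := ⟨_, rfl⟩
  rw [← hw] at hQ1
  have hX₀ : (0 : ℝ) ≤ X₀ := Nat.cast_nonneg X₀
  have hw0 : 0 < w := by rw [hw]; positivity
  obtain ⟨s, hs⟩ : ∃ s : ℝ, s = (β - α) * Q / (4 * (1 + M)) := ⟨_, rfl⟩
  have h1 : w ^ 2 ≤ (β - α) * Q := by
    calc w ^ 2 = (Q : ℝ) ^ (δ - 1) * Q := by
          rw [hw, ← Real.rpow_natCast, ← Real.rpow_mul hQ0.le]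
          conv_rhs => rw [show (Q : ℝ) ^ (δ - 1) * Q = (Q : ℝ) ^ (δ - 1) * (Q : ℝ) ^ (1 : ℝ) by
            rw [Real.rpow_one]]
          rw [← Real.rpow_add hQ0]
          congr 1
          push_cast
          ring
      _ ≤ (β - α) * Q := mul_le_mul_of_nonneg_right hab hQ0.le
  have h2 : w * (X₀ + 3) ≤ s := by
    rw [hs, le_div_iff₀ (by positivity)]
    nlinarith
  have hw1 : 1 ≤ w := by rw [hw]; exact Real.one_le_rpow hQone (by linarith)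
  obtain ⟨X, hX⟩ : ∃ X : ℕ, X = ⌊s⌋₊ := ⟨_, rfl⟩
  have hs0 : 0 ≤ s := le_trans (by positivity) h2
  have hXs : (X : ℝ) ≤ s := by rw [hX]; exact Nat.floor_le hs0
  have hXs' : s < X + 1 := by rw [hX]; exact Nat.lt_floor_add_one s
  have hXX : (X₀ : ℝ) ≤ X := by nlinarith
  have hXw : w ≤ X := by nlinarith
  have hs4 : s * (4 * (1 + M)) = (β - α) * Q := by
    rw [hs]
    field_simp
  have hX4 : (X : ℝ) * (4 * (1 + M)) ≤ (β - α) * Q := by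
    rw [← hs4]
    exact mul_le_mul_of_nonneg_right hXs (by positivity)
  have hβα : β - α ≤ 2 * M := by linarith
  have hXQ : (X : ℝ) ≤ Q / 2 := by nlinarith
  refine ⟨X, by exact_mod_cast hXX, ?_, ?_, ?_⟩
  · -- convex
    intro z hz z' hz' p q hp hq hpq
    obtain ⟨a1, a2, a3, a4⟩ := hz
    obtain ⟨b1, b2, b3, b4⟩ := hz'
    refine ⟨?_, ?_, ?_, ?_⟩
    · simp only [Prod.snd_add, Prod.smul_snd, smul_eq_mul]
      rcases hp.eq_or_lt with h | h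
      · have : q = 1 := by linarith
        rw [← h, this]
        linarith
      · have := mul_pos h a1
        have := mul_nonneg hq b1.le
        linarith
    · simp only [Prod.snd_add, Prod.smul_snd, smul_eq_mul]
      calc p * z.2 + q * z'.2 ≤ p * Q + q * Q := by gcongr
        _ = Q := by rw [← add_mul, hpq, one_mul]
    · simp only [Prod.snd_add, Prod.smul_snd, smul_eq_mul, Prod.fst_add, Prod.smul_fst]
      have k1 := mul_le_mul_of_nonneg_left a3 hp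
      have k2 := mul_le_mul_of_nonneg_left b3 hq
      have k3 : α * (p * z.2 + q * z'.2) = p * (α * z.2) + q * (α * z'.2) := by ring
      rw [k3]
      exact add_le_add k1 k2
    · simp only [Prod.snd_add, Prod.smul_snd, smul_eq_mul, Prod.fst_add, Prod.smul_fst]
      have k1 := mul_le_mul_of_nonneg_left a4 hp
      have k2 := mul_le_mul_of_nonneg_left b4 hq
      have k3 : β * (p * z.2 + q * z'.2) = p * (β * z.2) + q * (β * z'.2) := by ring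
      rw [k3]
      exact add_le_add k1 k2
  · -- bounded
    intro z hz
    obtain ⟨a1, a2, a3, a4⟩ := hz
    have hXL : (Q : ℝ) ^ 2 ≤ (X : ℝ) ^ ⌈4 / δ⌉₊ := by
      calc (Q : ℝ) ^ 2 = w ^ (4 / δ) := by
            rw [hw, ← Real.rpow_mul hQ0.le, ← Real.rpow_natCast]
            congr 1
            push_cast
            field_simp
            norm_num
        _ ≤ w ^ ((⌈4 / δ⌉₊ : ℕ) : ℝ) := Real.rpow_le_rpow_of_exponent_le hw1 (Nat.le_ceil _)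
        _ = w ^ ⌈4 / δ⌉₊ := Real.rpow_natCast _ _
        _ ≤ (X : ℝ) ^ ⌈4 / δ⌉₊ := pow_le_pow_left₀ hw0.le hXw _
    have h5 : |z.2| ≤ Q := by
      rw [abs_of_pos a1]
      exact a2
    have h6 : |z.1| ≤ M * Q := by
      have k1 := mul_le_mul_of_nonneg_right hα a1.le
      have k2 := mul_le_mul_of_nonneg_right hβ a1.le
      have k3 := mul_le_mul_of_nonneg_left a2 hM
      rw [neg_mul] at k1
      rw [abs_le]
      constructor <;> linarith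
    have k4 : (Q : ℝ) * 1 ≤ Q * Q := mul_le_mul_of_nonneg_left hQone hQ0.le
    have k5 : (M : ℝ) * Q ≤ Q * Q := mul_le_mul_of_nonneg_right (by linarith) hQ0.le
    constructor
    · refine h6.trans (le_trans ?_ hXL)
      rw [sq]
      exact k5
    · refine h5.trans (le_trans ?_ hXL)
      rw [sq]
      linarith
  · -- the square
    obtain ⟨γ, hγ⟩ : ∃ γ : ℝ, γ = (α + β) / 2 := ⟨_, rfl⟩
    obtain ⟨c, hc⟩ : ∃ c : ℝ, c = Q - X / 2 := ⟨_, rfl⟩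
    refine ⟨γ * c - X / 2, Q - X, ?_⟩
    rintro ⟨x, y⟩ hz
    rw [Set.mem_prod, Set.mem_Icc, Set.mem_Icc] at hz
    obtain ⟨⟨e1, e2⟩, e3, e4⟩ := hz
    simp only at e1 e2 e3 e4
    have hX0 : (0 : ℝ) ≤ X := Nat.cast_nonneg X
    have f1 : |c - y| ≤ X / 2 := by
      rw [abs_le]
      constructor <;> linarith
    have hab0 : 0 ≤ β - α := le_trans (by positivity) hab
    have f2 : |γ| ≤ M := by
      rw [abs_le]
      constructor <;> linarith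
    have f3 : |γ * (c - y)| ≤ M * (X / 2) := by
      rw [abs_mul]
      exact mul_le_mul f2 f1 (abs_nonneg _) hM
    have f4 := abs_le.1 f3
    have f5 : (β - α) * (Q / 2) ≤ (β - α) * y := mul_le_mul_of_nonneg_left (by linarith) hab0
    have g1 : γ * (c - y) = γ * c - γ * y := by ring
    rw [g1] at f4
    have g2 : γ * y = (α * y + β * y) / 2 := by rw [hγ]; ring
    have g3 : (β - α) * y = β * y - α * y := by ring
    rw [g2] at f4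
    rw [g3] at f5
    have g4 : (X : ℝ) * (4 * (1 + M)) = 4 * X + 4 * (M * X) := by ring
    rw [g4] at hX4
    have g5 : (M : ℝ) * (X / 2) = M * X / 2 := by ring
    rw [g5] at f4
    refine ⟨?_, ?_, ?_, ?_⟩
    · change 0 < y
      linarith
    · change y ≤ Q
      linarith
    · change α * y ≤ x
      linarith [f4.1, f4.2]
    · change x ≤ β * y
      linarith [f4.1, f4.2]

end Pool.Agent.T6.H64.AR
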